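import Mathlib
import Pool.Agent.Q265.Turan

/-! # No uniform Erdos-Kac rate for floors of irreducible quadratics -/

set_option autoImplicit false

namespace Pool.Agent.Results.MP_02e1b1_nt.NoUniformRate

open Filter Topology Finset

/-- the number of distinct primes dividing `m` -/
def omega (m : ℕ) : ℕ := m.primeFactors.card

/-- the admissible triples: `α > 0`, `β² < 4αγ`, and `α`, `β` are not both rational -/
def Admissible (α β γ : ℝ) : Prop :=
  0 < α ∧ β ^ 2 < 4 * α * γ ∧ ¬ ((∃ q : ℚ, (q : ℝ) = α) ∧ (∃ q : ℚ, (q : ℝ) = β))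

/-- the value at `n` of the random variable `X_N` of the triple `(α, β, γ)`:
`(ω(⌊α n² + β n + γ⌋) - log log N) / √(log log N)` -/
noncomputable def XN (α β γ : ℝ) (N n : ℕ) : ℝ :=
  ((omega ⌊α * (n : ℝ) ^ 2 + β * n + γ⌋₊ : ℝ) - Real.log (Real.log N)) /
    Real.sqrt (Real.log (Real.log N))

/-- `P(X_N ≤ x)` for `n` uniform in `{1, …, N}` -/
noncomputable def cdfX (α β γ : ℝ) (N : ℕ) (x : ℝ) : ℝ :=
  (((Icc 1 N).filter (fun n : ℕ => XN α β γ N n ≤ x)).card : ℝ) / N

/-- `P(Z ≤ x)` for a standard normal variable `Z` -/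
noncomputable def cdfZ (x : ℝ) : ℝ := (ProbabilityTheory.gaussianReal 0 1).real (Set.Iic x)

/-- the Kolmogorov distance of `X_N` and `Z` -/
noncomputable def dK (α β γ : ℝ) (N : ℕ) : ℝ := ⨆ x : ℝ, |cdfX α β γ N x - cdfZ x|

theorem cdfX_le_one (α β γ : ℝ) (N : ℕ) (x : ℝ) : cdfX α β γ N x ≤ 1 := by
  unfold cdfX
  apply div_le_one_of_le₀ _ (Nat.cast_nonneg _)
  have := Finset.card_filter_le (Icc 1 N) (fun n : ℕ => XN α β γ N n ≤ x)
  rw [Nat.card_Icc, Nat.add_sub_cancel] at this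
  exact_mod_cast this

theorem cdfX_nonneg (α β γ : ℝ) (N : ℕ) (x : ℝ) : 0 ≤ cdfX α β γ N x := by
  unfold cdfX; positivity

theorem cdfZ_nonneg (x : ℝ) : 0 ≤ cdfZ x := MeasureTheory.measureReal_nonneg

theorem cdfZ_le_one (x : ℝ) : cdfZ x ≤ 1 := MeasureTheory.measureReal_le_one

theorem bdd (α β γ : ℝ) (N : ℕ) :
    BddAbove (Set.range fun x : ℝ => |cdfX α β γ N x - cdfZ x|) := by
  refine ⟨1, ?_⟩
  rintro _ ⟨x, rfl⟩
  rw [abs_le]
  constructor <;> linarith [cdfX_le_one α β γ N x, cdfX_nonneg α β γ N x, cdfZ_nonneg x,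
    cdfZ_le_one x]

theorem le_dK (α β γ : ℝ) (N : ℕ) (x : ℝ) : |cdfX α β γ N x - cdfZ x| ≤ dK α β γ N :=
  le_ciSup (bdd α β γ N) x

theorem tendsto_cdfZ : Tendsto cdfZ atTop (𝓝 1) := by
  have h := MeasureTheory.tendsto_measure_Iic_atTop (ProbabilityTheory.gaussianReal 0 1)
  have h1 : (ProbabilityTheory.gaussianReal 0 1) Set.univ = 1 := MeasureTheory.measure_univ
  rw [h1] at h
  have h2 := (ENNReal.tendsto_toReal (by norm_num : (1 : ENNReal) ≠ ⊤)).comp h
  have h3 : cdfZ = ENNReal.toReal ∘ fun x => (ProbabilityTheory.gaussianReal 0 1) (Set.Iic x) := by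
    funext x
    rfl
  rw [h3]
  simpa using h2

theorem omega_ge (a Q m : ℕ) (ha : 1 ≤ a) (hm : 1 ≤ m) :
    omega m + omega (Q * m + 1) ≤ omega (2 * a * m * (Q * m + 1)) := by
  unfold omega
  have hc : Nat.Coprime m (Q * m + 1) := by
    have h1 : Nat.Coprime m 1 := Nat.coprime_one_right m
    rw [add_comm]
    exact (Nat.coprime_add_mul_right_right m 1 Q).2 h1
  rw [← Finset.card_union_of_disjoint hc.disjoint_primeFactors, ← hc.primeFactors_mul]
  apply Finset.card_le_card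
  apply Nat.primeFactors_mono
  · exact ⟨2 * a, by ring⟩
  · have : 0 < 2 * a * m * (Q * m + 1) := by positivity
    omega

theorem floor_eq (a Q m N : ℕ) (hQ : 1 ≤ Q) (hr : (a : ℝ) / (2 * Q) < 1 / 4) (α : ℝ)
    (hN : 1 + 2 * Q * m ≤ N) (h1 : (a : ℝ) / (2 * Q) ≤ α)
    (h2 : α ≤ (a : ℝ) / (2 * Q) + 1 / (2 * (N : ℝ) ^ 2)) :
    ⌊α * ((1 + 2 * Q * m : ℕ) : ℝ) ^ 2 + 0 * ((1 + 2 * Q * m : ℕ) : ℝ) + 1 / 4⌋₊ =
      2 * a * m * (Q * m + 1) := by
  have hQ0 : (0 : ℝ) < Q := by exact_mod_cast hQ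
  have hN0 : (0 : ℝ) < N := by exact_mod_cast (show 0 < N by omega)
  have hle : ((1 + 2 * Q * m : ℕ) : ℝ) ≤ N := by exact_mod_cast hN
  have hpos : (0 : ℝ) ≤ ((1 + 2 * Q * m : ℕ) : ℝ) := Nat.cast_nonneg _
  set n : ℝ := ((1 + 2 * Q * m : ℕ) : ℝ) with hn
  have hn' : n = 1 + 2 * Q * m := by rw [hn]; push_cast; ring
  have hsq : n ^ 2 ≤ (N : ℝ) ^ 2 := by nlinarith
  have ha0 : (0 : ℝ) ≤ (a : ℝ) / (2 * Q) := by positivity
  have hmain : (a : ℝ) / (2 * Q) * n ^ 2 =
      ((2 * a * m * (Q * m + 1) : ℕ) : ℝ) + (a : ℝ) / (2 * Q) := by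
    rw [hn']
    push_cast
    field_simp
    ring
  have hd1 : 0 ≤ (α - (a : ℝ) / (2 * Q)) * n ^ 2 := mul_nonneg (by linarith) (sq_nonneg _)
  have hd2 : (α - (a : ℝ) / (2 * Q)) * n ^ 2 ≤ 1 / 2 := by
    calc (α - (a : ℝ) / (2 * Q)) * n ^ 2 ≤ (1 / (2 * (N : ℝ) ^ 2)) * (N : ℝ) ^ 2 := by
          apply mul_le_mul _ hsq (sq_nonneg _) (by positivity)
          linarith
      _ = 1 / 2 := by field_simp
  have hval : α * n ^ 2 + 0 * n + 1 / 4 = ((2 * a * m * (Q * m + 1) : ℕ) : ℝ) +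
      ((a : ℝ) / (2 * Q) + (α - (a : ℝ) / (2 * Q)) * n ^ 2 + 1 / 4) := by
    linear_combination hmain
  rw [hval, Nat.floor_eq_iff (by positivity)]
  constructor <;> linarith

/-- the main estimate at a rational number -/
theorem key (a Q : ℕ) (ha : 1 ≤ a) (hQ : 1 ≤ Q) (hr : (a : ℝ) / (2 * Q) < 1 / 4) :
    ∀ᶠ N : ℕ in atTop, ∀ α : ℝ, (a : ℝ) / (2 * Q) ≤ α →
      α ≤ (a : ℝ) / (2 * Q) + 1 / (2 * (N : ℝ) ^ 2) → 1 / (8 * Q : ℝ) ≤ dK α 0 (1 / 4) N := by
  have hQ0 : (0 : ℝ) < Q := by exact_mod_cast hQ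
  have hll : Tendsto (fun N : ℕ => Real.log (Real.log N)) atTop atTop :=
    Real.tendsto_log_atTop.comp (Real.tendsto_log_atTop.comp tendsto_natCast_atTop_atTop)
  have hE := Pool.Agent.Q265.Turan.few_small.eventually_le_const
    (show (0 : ℝ) < 1 / (16 * Q) by positivity)
  have hZ : ∀ᶠ N : ℕ in atTop, 1 - 1 / (8 * Q : ℝ) ≤
      cdfZ (Real.sqrt (Real.log (Real.log N)) / 4) := by
    have h1 : Tendsto (fun N : ℕ => Real.sqrt (Real.log (Real.log N)) / 4) atTop atTop :=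
      (Real.tendsto_sqrt_atTop.comp hll).atTop_div_const (by norm_num)
    exact (tendsto_cdfZ.comp h1).eventually_const_le
      (show 1 - 1 / (8 * Q : ℝ) < 1 by
        have : 0 < 1 / (8 * Q : ℝ) := by positivity
        linarith)
  filter_upwards [hE, hZ, hll.eventually_ge_atTop 1, eventually_ge_atTop (16 * Q)] with
    N h1 h2 h3 h4 α h5 h6
  set L := Real.log (Real.log N) with hL
  have hL0 : 0 < L := by linarith
  have hs0 : 0 < Real.sqrt L := Real.sqrt_pos.2 hL0
  have hN0 : (0 : ℝ) < N := by exact_mod_cast (show 0 < N by omega)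
  set E := (Icc 1 N).filter (fun n : ℕ => (n.primeFactors.card : ℝ) < 3 / 4 * L) with hEdef
  -- the number of good `m`
  set M := (N - 1) / (2 * Q) with hM
  have hMN : 1 + 2 * Q * M ≤ N := by
    have : 2 * Q * M ≤ N - 1 := Nat.mul_div_le (N - 1) (2 * Q)
    omega
  have hMlow : (N : ℝ) ≤ 2 * Q * M + 2 * Q := by
    have h7 : 2 * Q * M + (N - 1) % (2 * Q) = N - 1 := Nat.div_add_mod (N - 1) (2 * Q)
    have h8 := Nat.mod_lt (N - 1) (show 0 < 2 * Q by omega)
    have h9 : N ≤ 2 * Q * M + 2 * Q := by omega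
    exact_mod_cast h9
  set B := (Icc 1 M).filter (fun m : ℕ => ((omega m : ℕ) : ℝ) < 3 / 4 * L) with hB
  set B' := (Icc 1 M).filter (fun m : ℕ => ((omega (Q * m + 1) : ℕ) : ℝ) < 3 / 4 * L) with hB'
  have hBE : B.card ≤ E.card := by
    apply Finset.card_le_card
    intro m hm
    rw [hB, mem_filter, mem_Icc] at hm
    rw [hEdef, mem_filter, mem_Icc]
    refine ⟨⟨hm.1.1, ?_⟩, hm.2⟩
    have : M ≤ 2 * Q * M := Nat.le_mul_of_pos_left _ (by omega)
    omega
  have hB'E : B'.card ≤ E.card := by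
    have : (B'.image (fun m => Q * m + 1)) ⊆ E := by
      intro k hk
      rw [mem_image] at hk
      obtain ⟨m, hm, rfl⟩ := hk
      rw [hB', mem_filter, mem_Icc] at hm
      rw [hEdef, mem_filter, mem_Icc]
      refine ⟨⟨by omega, ?_⟩, hm.2⟩
      have h7 : Q * m ≤ Q * M := Nat.mul_le_mul_left _ hm.1.2
      have h8 : Q * M ≤ 2 * Q * M := by nlinarith
      omega
    have h7 := Finset.card_le_card this
    rwa [Finset.card_image_of_injective _ (by
      intro x y hxy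
      have : Q * x = Q * y := by simpa using hxy
      exact Nat.eq_of_mul_eq_mul_left (by omega) this)] at h7
  set G := (Icc 1 M) \ (B ∪ B') with hG
  have hGcard : (M : ℝ) - 2 * E.card ≤ G.card := by
    have h7 : (Icc 1 M).card - (B ∪ B').card ≤ G.card := Finset.le_card_sdiff _ _
    have h8 := Finset.card_union_le B B'
    rw [Nat.card_Icc, Nat.add_sub_cancel] at h7
    have h9 : M ≤ G.card + 2 * E.card := by omega
    have : (M : ℝ) ≤ G.card + 2 * E.card := by exact_mod_cast h9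
    linarith
  -- the good integers are not counted in the distribution function
  set x0 := Real.sqrt L / 4 with hx0
  have hcount : ((Icc 1 N).filter (fun n : ℕ => XN α 0 (1 / 4) N n ≤ x0)).card + G.card ≤ N := by
    have h7 : (G.image (fun m => 1 + 2 * Q * m)).card = G.card := by
      apply Finset.card_image_of_injective
      intro x y hxy
      have : 2 * Q * x = 2 * Q * y := by simpa using hxy
      exact Nat.eq_of_mul_eq_mul_left (by omega) this
    have hdisj : Disjoint ((Icc 1 N).filter (fun n : ℕ => XN α 0 (1 / 4) N n ≤ x0))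
        (G.image (fun m => 1 + 2 * Q * m)) := by
      rw [Finset.disjoint_left]
      intro n hn hn'
      rw [mem_image] at hn'
      obtain ⟨m, hm, rfl⟩ := hn'
      have h8 := (mem_filter.1 hn).2
      rw [hG, Finset.mem_sdiff, mem_union, not_or, mem_Icc] at hm
      obtain ⟨⟨hm1, hm2⟩, hm3, hm4⟩ := hm
      have hm3' : 3 / 4 * L ≤ (omega m : ℝ) := by
        by_contra hcon
        exact hm3 (by rw [hB, mem_filter, mem_Icc]; exact ⟨⟨hm1, hm2⟩, not_le.1 hcon⟩)
      have hm4' : 3 / 4 * L ≤ (omega (Q * m + 1) : ℝ) := by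
        by_contra hcon
        exact hm4 (by rw [hB', mem_filter, mem_Icc]; exact ⟨⟨hm1, hm2⟩, not_le.1 hcon⟩)
      have hmN : 1 + 2 * Q * m ≤ N := by
        have : 2 * Q * m ≤ 2 * Q * M := Nat.mul_le_mul_left _ hm2
        omega
      unfold XN at h8
      rw [floor_eq a Q m N hQ hr α hmN h5 h6, div_le_iff₀ hs0] at h8
      have h9 := omega_ge a Q m ha hm1
      have h10 : (omega m : ℝ) + omega (Q * m + 1) ≤ omega (2 * a * m * (Q * m + 1)) := by
        exact_mod_cast h9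
      have h11 : x0 * Real.sqrt L = L / 4 := by
        rw [hx0]
        have := Real.mul_self_sqrt hL0.le
        linear_combination this / 4
      rw [h11, ← hL] at h8
      linarith
    rw [← h7, ← Finset.card_union_of_disjoint hdisj]
    have hsub : (Icc 1 N).filter (fun n : ℕ => XN α 0 (1 / 4) N n ≤ x0) ∪
        G.image (fun m => 1 + 2 * Q * m) ⊆ Icc 1 N := by
      apply Finset.union_subset (Finset.filter_subset _ _)
      intro n hn
      rw [mem_image] at hn
      obtain ⟨m, hm, rfl⟩ := hn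
      rw [hG, Finset.mem_sdiff, mem_Icc] at hm
      rw [mem_Icc]
      have : 2 * Q * m ≤ 2 * Q * M := Nat.mul_le_mul_left _ hm.1.2
      omega
    have := Finset.card_le_card hsub
    rwa [Nat.card_Icc, Nat.add_sub_cancel] at this
  have hcount' : (((Icc 1 N).filter (fun n : ℕ => XN α 0 (1 / 4) N n ≤ x0)).card : ℝ) + G.card ≤
      N := by exact_mod_cast hcount
  have hGlow : (N : ℝ) / (4 * Q) ≤ G.card := by
    rw [div_le_iff₀ hN0] at h1
    have h7 : (N : ℝ) / (2 * Q) - 1 ≤ M := by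
      rw [sub_le_iff_le_add, div_le_iff₀ (by positivity)]
      linarith
    have h8 : (1 : ℝ) ≤ N / (8 * Q) := by
      rw [le_div_iff₀ (by positivity)]
      have : ((16 * Q : ℕ) : ℝ) ≤ N := by exact_mod_cast h4
      push_cast at this
      linarith
    have h9 : (E.card : ℝ) ≤ N / (16 * Q) := by
      have : 1 / (16 * (Q : ℝ)) * N = N / (16 * Q) := by ring
      linarith
    have h10 : (N : ℝ) / (2 * Q) - N / (8 * Q) - 2 * (N / (16 * Q)) = N / (4 * Q) := by
      field_simp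
      ring
    linarith
  have hF : cdfX α 0 (1 / 4) N x0 ≤ 1 - 1 / (4 * Q) := by
    unfold cdfX
    rw [div_le_iff₀ hN0]
    have : (1 - 1 / (4 * (Q : ℝ))) * N = N - N / (4 * Q) := by ring
    rw [this]
    linarith
  have hfin := le_dK α 0 (1 / 4) N x0
  have h7 : cdfZ x0 - cdfX α 0 (1 / 4) N x0 ≤ |cdfX α 0 (1 / 4) N x0 - cdfZ x0| := by
    rw [abs_sub_comm]; exact le_abs_self _
  have h8 : 1 / (4 * (Q : ℝ)) - 1 / (8 * Q) = 1 / (8 * Q) := by
    field_simp
    norm_num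
  linarith

/-- For every sequence `η` tending to `0` there is an admissible triple for which the Kolmogorov
distance of `X_N` and a standard normal variable is not `O(η_N)`. -/
theorem result : ∀ η : ℕ → ℝ, Tendsto η atTop (𝓝 0) →
    ∃ α β γ : ℝ, Admissible α β γ ∧ ¬ ((fun N : ℕ => dK α β γ N) =O[atTop] η) := by
  intro η hη
  let G : ℕ → Set ℝ := fun j =>
    {α | α ∈ Set.Ioo (1 / 8 : ℝ) (1 / 4) → ∃ N : ℕ, j ≤ N ∧ j * |η N| < dK α 0 (1 / 4) N}
  have hlow : ∀ j, Set.Iio (1 / 8 : ℝ) ⊆ interior (G j) := by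
    intro j
    apply interior_maximal _ isOpen_Iio
    intro x hx hx'
    exact absurd hx'.1 (not_lt.2 (le_of_lt hx))
  have hhigh : ∀ j, Set.Ioi (1 / 4 : ℝ) ⊆ interior (G j) := by
    intro j
    apply interior_maximal _ isOpen_Ioi
    intro x hx hx'
    exact absurd hx'.2 (not_lt.2 (le_of_lt hx))
  have hrat : ∀ (j : ℕ) (r : ℚ), 0 < r → (r : ℝ) < 1 / 4 →
      ∃ δ : ℝ, 0 < δ ∧ Set.Ioo (r : ℝ) (r + δ) ⊆ interior (G j) := by
    intro j r hr0 hr1
    set a : ℕ := 2 * r.num.toNat with ha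
    set Q : ℕ := r.den with hQ
    have hnum : 0 < r.num := Rat.num_pos.2 hr0
    have ha1 : 1 ≤ a := by omega
    have hQ1 : 1 ≤ Q := r.den_pos
    have hQ0 : (0 : ℝ) < Q := by exact_mod_cast hQ1
    have hreq : (r : ℝ) = (a : ℝ) / (2 * Q) := by
      have h1 : ((r.num.toNat : ℕ) : ℤ) = r.num := Int.toNat_of_nonneg hnum.le
      have h2 : ((r.num.toNat : ℕ) : ℝ) = (r.num : ℝ) := by exact_mod_cast h1
      rw [Rat.cast_def, ha, ← hQ]
      push_cast
      rw [h2]
      field_simp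
    have hkey := key a Q ha1 hQ1 (by rw [← hreq]; exact hr1)
    have hη' : ∀ᶠ N : ℕ in atTop, (j : ℝ) * |η N| < 1 / (8 * Q) := by
      have h1 : Tendsto (fun N => (j : ℝ) * |η N|) atTop (𝓝 (j * |0|)) :=
        (hη.abs).const_mul _
      rw [abs_zero, mul_zero] at h1
      exact h1.eventually_lt_const (by positivity)
    obtain ⟨N, hN1, hN2, hN3, hN4⟩ := (hkey.and (hη'.and ((eventually_ge_atTop j).and
      (eventually_ge_atTop 1)))).exists
    have hN0 : (0 : ℝ) < N := by exact_mod_cast hN4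
    refine ⟨1 / (2 * (N : ℝ) ^ 2), by positivity, ?_⟩
    apply interior_maximal _ isOpen_Ioo
    intro α hα _
    refine ⟨N, hN3, lt_of_lt_of_le hN2 (hN1 α ?_ ?_)⟩
    · rw [← hreq]; exact hα.1.le
    · rw [← hreq]; exact hα.2.le
  have hdense : ∀ j, Dense (interior (G j)) := by
    intro j
    rw [Metric.dense_iff]
    intro x ε hε
    by_cases h1 : x < 1 / 8
    · exact ⟨x, Metric.mem_ball_self hε, hlow j h1⟩
    by_cases h2 : 1 / 4 ≤ x
    · refine ⟨x + ε / 2, ?_, hhigh j (by show 1 / 4 < x + ε / 2; linarith)⟩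
      rw [Metric.mem_ball, Real.dist_eq, abs_lt]
      constructor <;> linarith
    · rw [not_lt] at h1
      rw [not_le] at h2
      obtain ⟨r, hr1, hr2⟩ := exists_rat_btwn (show x < min (x + ε / 2) (1 / 4) by
        rw [lt_min_iff]; constructor <;> linarith)
      have hr3 := lt_of_lt_of_le hr2 (min_le_left _ _)
      have hr4 := lt_of_lt_of_le hr2 (min_le_right _ _)
      have hr0 : 0 < r := by
        have : (0 : ℝ) < r := by linarith
        exact_mod_cast this
      obtain ⟨δ, hδ, hsub⟩ := hrat j r hr0 hr4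
      have hm1 : 0 < min δ (ε / 2) := lt_min hδ (by linarith)
      have hm2 := min_le_left δ (ε / 2)
      have hm3 := min_le_right δ (ε / 2)
      refine ⟨r + min δ (ε / 2) / 2, ?_, hsub ⟨by linarith, by linarith⟩⟩
      rw [Metric.mem_ball, Real.dist_eq, abs_lt]
      constructor <;> linarith
  have hres : ∀ᶠ α in residual ℝ, ∀ j, α ∈ interior (G j) := by
    rw [eventually_countable_forall]
    intro j
    exact residual_of_dense_open isOpen_interior (hdense j)
  have hboth := hres.and eventually_residual_irrational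
  have hd : Dense {α : ℝ | (∀ j, α ∈ interior (G j)) ∧ Irrational α} :=
    dense_of_mem_residual hboth
  obtain ⟨α, ⟨hα1, hα2⟩, hα3⟩ := hd.exists_mem_open (isOpen_Ioo (a := (1 / 8 : ℝ)) (b := 1 / 4))
    ⟨3 / 16, by norm_num, by norm_num⟩
  refine ⟨α, 0, 1 / 4, ⟨?_, ?_, ?_⟩, ?_⟩
  · linarith [hα3.1, hα3.2]
  · have := hα3.1
    nlinarith
  · rintro ⟨⟨q, hq⟩, _⟩
    exact hα2 ⟨q, hq⟩
  · intro hO
    obtain ⟨C, hC⟩ := hO.bound
    obtain ⟨N0, hN0⟩ := eventually_atTop.1 hC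
    obtain ⟨k, hk⟩ := exists_nat_ge C
    obtain ⟨N, hN1, hN2⟩ := interior_subset (hα1 (max k N0)) hα3
    have h1 := hN0 N ((le_max_right _ _).trans hN1)
    rw [Real.norm_eq_abs, Real.norm_eq_abs] at h1
    have h2 : C * |η N| ≤ ((max k N0 : ℕ) : ℝ) * |η N| := by
      apply mul_le_mul_of_nonneg_right _ (abs_nonneg _)
      refine hk.trans ?_
      exact_mod_cast le_max_left _ _
    have h3 := le_abs_self (dK α 0 (1 / 4) N)
    linarith

end Pool.Agent.Results.MP_02e1b1_nt.NoUniformRate
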